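import Pool.Agent.helper25.PF.PFam

/-!
# MP_be3d3f_lc: ultrafilters whose base is a union of few basic families

A family `A` of sets of an ultrafilter `U` is basic if every sequence in `A` that converges to a
member of `A` has a subsequence whose intersection is in `U`; the basic number of `U` is the
least number of basic families whose union is a base of `U`.
-/

namespace Pool.Agent.Results.MP_be3d3f_lc.BasicFamilies

open Cardinal Pool.Agent.helper43.Tukey Pool.Agent.helper25.PF

/-- Let `[J]^{<ω}` be Tukey below the nonprincipal ultrafilter `U` on the natural numbers, `J`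
uncountable. Then `|J|` is at most the basic number of `U`, and so `U` is not generated by a
P-filter and fewer than `|J|` further sets. If `U` is also Tukey below `[J]^{<ω}`, then the basic
number of `U` and the character of `U` are equal to `|J|`. -/
theorem result (U : Ultrafilter ℕ) (hU : Nonprincipal U) (J : Type) (hJ : ℵ₀ < Cardinal.mk J)
    (h : TukeyLE (Finset J) (Dir U)) :
    Cardinal.mk J ≤ basicNumber U ∧
      (∀ (F : Filter ℕ) (G : Set (Set ℕ)), PFilter F → GeneratedOver U F G →
        Cardinal.mk J ≤ Cardinal.mk G) ∧
      (TukeyLE (Dir U) (Finset J) →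
        basicNumber U = Cardinal.mk J ∧ character U = Cardinal.mk J) := by
  have h1 : Cardinal.mk J ≤ basicNumber U := by
    by_contra hlt
    rw [not_le] at hlt
    obtain ⟨I, A, hI, hA, hbase⟩ := basicNumber_mem U
    rw [← hI] at hlt
    exact not_tukeyLE U A hA hbase J hlt hJ h
  exact ⟨h1, fun F G hF hG => h1.trans (basicNumber_le_of_pfilter hU hF hG),
    fun h2 => all_eq hU ⟨h2, h⟩⟩

end Pool.Agent.Results.MP_be3d3f_lc.BasicFamilies
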