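import Pool.Agent.helper43.Tukey.Spec

/-!
# MP_be3d3f_lc: every character is at least the dominating number and equals the cofinality
of its countable subsets
-/

namespace Pool.Agent.Results.MP_be3d3f_lc.CharacterBounds

open Pool.Agent.helper43.Tukey

/-- If every nonprincipal ultrafilter on the natural numbers is Tukey equivalent to the finite
subsets of some cardinal, then for every nonprincipal ultrafilter `U` with character `κ` there
are a dominating family of at most `κ` functions and a cofinal family of at most `κ` countable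
subsets of `κ`. -/
theorem result (h : EveryFinsetType) (U : Ultrafilter ℕ) (hU : Nonprincipal U) (ι : Type)
    (hι : Cardinal.mk ι = character U) :
    (∃ F : Set (ℕ → ℕ), Cardinal.mk F ≤ character U ∧ ∀ f : ℕ → ℕ, ∃ g ∈ F, ∀ n, f n ≤ g n) ∧
      ∃ F : Set (Set ι), Cardinal.mk F ≤ character U ∧ (∀ Y ∈ F, Y.Countable) ∧
        ∀ X : Set ι, X.Countable → ∃ Y ∈ F, X ⊆ Y := by
  have hle : character (usum U (fun _ => U)) ≤ character U :=
    character_usum_le h (aleph0_le_character hU) (fun _ => hU) le_rfl (fun _ => le_rfl)
  constructor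
  · obtain ⟨F, hF, h2⟩ := dominating_le U (fun _ => U) hU (fun _ => hU)
    exact ⟨F, hF.trans hle, h2⟩
  · obtain ⟨A, hA, hfin⟩ := top_family_of_le h hU (J := ι) hι.le
    obtain ⟨F, hF, h2, h3⟩ := cofinal_le U hU A hA hfin
    exact ⟨F, hF.trans hle, h2, h3⟩

end Pool.Agent.Results.MP_be3d3f_lc.CharacterBounds
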