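import Pool.Agent.helper43.Tukey.Spec

/-!
# MP_be3d3f_lc: only finitely many characters

If every nonprincipal ultrafilter on the natural numbers is Tukey equivalent to the finite
subsets of some cardinal, then the ultrafilters on the natural numbers have only finitely many
different characters.
-/

namespace Pool.Agent.Results.MP_be3d3f_lc.FiniteSpectrum

open Pool.Agent.helper43.Tukey

theorem result (h : EveryFinsetType) :
    {c : Cardinal.{0} | ∃ U : Ultrafilter ℕ, Nonprincipal U ∧ character U = c}.Finite :=
  finite_spectrum h

end Pool.Agent.Results.MP_be3d3f_lc.FiniteSpectrum
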